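import Pool.Agent.H488.PF.Necessary

/-!
# Philippon's inequality over the rational function fields: the exact set of the constants

The analogue of Q1 over `k(t)`: for which `B, α, ε` is there a `β` such that for all nonzero
rational functions `x, y` with `x y ^ B ≠ 1, -1`

`deg num (x y ^ B + 1) ≤ α B h(x) + ε B h(y) + B (α B + ε) (β + ∑ deg P)`,

where `P` runs through the monic primes of `k[t]` dividing the numerator of `x y ^ B + 1` and `h` is
the maximum of the degrees of the numerator and the denominator?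

* Characteristic zero, `α, ε ≥ 0`: exactly for `α B ≥ 1` and `α B (B - 2) + ε B ≥ 2 (B - 1)`
  (`ε ≥ 1` if `B = 1`), and then with `β = 0`. In the range of the question, `α ≥ 1` and `ε < 1/2`
  (or `ε < 1`): exactly for `B ≥ 4`, or `B = 3` and `α + ε ≥ 4 / 3`.
* Characteristic `p`: exactly for `α B ≥ 1` and `ε ≥ 1`; but with the constants above and `B ≥ 3` the
  inequality is true for all `x, y` such that the numerator or the denominator of `x y ^ B` has a
  nonzero derivative.
* Over every field, for these `x, y`, with `z = x y ^ B` and `r = ∑ deg P`: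
  `B (h(z) + 1) ≤ 2 h(z) + 2 (B - 1) h(x) + B r`, which does not contain `h(y)`; in characteristic
  zero it is best possible up to the term `B (r - 1)`.

The inequality uses the theorem of Mason and Stothers and the fact that the primes of `x y ^ B` which
do not occur in `x` have multiplicity at least `B`. The extremal pairs come from the identity
`(X + 1) ^ (2 B - 3) (X - 1) = X ^ B f(X) - g(X)` with `f, g` of degree at most `B - 2` (the
coefficient of `X ^ (B - 1)` vanishes), in its homogeneous form at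
`P + Q = 2 (t - 1) ^ m`, `P - Q = 2 t ^ m`.
-/

set_option autoImplicit false

namespace Pool.Agent.Results.MP_05f553_nt.ConstantsOverFunctionFields

open Polynomial H488.PF

/-- The set of the constants in characteristic zero. -/
def Region (B : ℕ) (α ε : ℝ) : Prop :=
  1 ≤ α * B ∧ (B = 1 → 1 ≤ ε) ∧ (B ≠ 1 → 2 * ((B : ℝ) - 1) ≤ α * B * (B - 2) + ε * B)

universe u

lemma region_sufficient {k : Type u} [Field k] [DecidableEq k] [CharZero k] {B : ℕ} {α ε : ℝ}
    (hB : 0 < B) (hε : 0 ≤ ε) (h : Region B α ε) : Holds k B α 0 ε := by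
  intro x y hx hy _ hne
  obtain ⟨h1, h2, h3⟩ := h
  rcases Nat.lt_or_ge B 3 with hlt | hge
  · have : 1 ≤ ε := by
      rcases eq_or_ne B 1 with h | h
      · exact h2 h
      · have hB2 : B = 2 := by omega
        have := h3 h
        subst hB2
        push_cast at this
        linarith
    exact ineq_of_one_le hB h1 this hx hy
  · exact ineq_of_region_char_zero hge h1 hε (h3 (by omega)) hx hy hne

lemma region_necessary {k : Type u} [Field k] [DecidableEq k] [CharZero k] {B : ℕ} {α β ε : ℝ}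
    (hB : 0 < B) (hα : 0 ≤ α) (hε : 0 ≤ ε) (H : Holds k B α β ε) : Region B α ε := by
  refine ⟨necessary_alpha hα hε H, ?_, ?_⟩
  · rintro rfl
    exact necessary_one hα hε H
  · intro h
    exact necessary_char_zero (by omega) hα hε H

lemma region_iff {B : ℕ} {α ε : ℝ} (hB : 0 < B) (hα : 1 ≤ α) (hε : 0 ≤ ε) (hε1 : ε < 1) :
    Region B α ε ↔ (4 ≤ B ∨ (B = 3 ∧ 4 / 3 ≤ α + ε)) := by
  constructor
  · rintro ⟨_, h2, h3⟩
    by_contra hcon
    push Not at hcon
    obtain ⟨hc1, hc2⟩ := hcon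
    have : B = 1 ∨ B = 2 ∨ B = 3 := by omega
    rcases this with rfl | rfl | rfl
    · linarith [h2 rfl]
    · have := h3 (by norm_num)
      push_cast at this
      linarith
    · have := h3 (by norm_num)
      push_cast at this
      have := hc2 rfl
      linarith
  · intro h
    obtain ⟨g1, g2, g3⟩ := region_of hα hε h
    exact ⟨g2, fun h => absurd h (by omega), fun _ => g3⟩

/-- **Philippon's inequality over rational function fields.** -/
theorem result :
    (∀ (k : Type u) [Field k] [DecidableEq k] [CharZero k] (B : ℕ) (α ε : ℝ),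
      0 < B → 0 ≤ α → 0 ≤ ε →
        ((∃ β : ℝ, Holds k B α β ε) ↔ Region B α ε) ∧ (Region B α ε → Holds k B α 0 ε)) ∧
    (∀ (k : Type u) [Field k] [DecidableEq k] [CharZero k] (B : ℕ) (α ε : ℝ),
      0 < B → 1 ≤ α → 0 ≤ ε → ε < 1 →
        ((∃ β : ℝ, Holds k B α β ε) ↔ (4 ≤ B ∨ (B = 3 ∧ 4 / 3 ≤ α + ε)))) ∧
    (∀ (k : Type u) [Field k] [DecidableEq k] (p : ℕ) [Fact p.Prime] [CharP k p] (B : ℕ)
      (α ε : ℝ), 0 < B → 0 ≤ α → 0 ≤ ε →
        ((∃ β : ℝ, Holds k B α β ε) ↔ (1 ≤ α * B ∧ 1 ≤ ε))) ∧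
    (∀ (k : Type u) [Field k] [DecidableEq k] (B : ℕ) (x y : RatFunc k),
      0 < B → x ≠ 0 → y ≠ 0 → x * y ^ B ≠ -1 →
      (derivative (x * y ^ B).num ≠ 0 ∨ derivative (x * y ^ B).denom ≠ 0) →
        (∀ α ε : ℝ, 3 ≤ B → 0 ≤ ε → Region B α ε → Ineq B α 0 ε x y) ∧
        B * (ht (x * y ^ B) + 1) ≤ 2 * ht (x * y ^ B) + 2 * (B - 1) * ht x
          + B * radDeg (x * y ^ B + 1)) ∧
    (∀ (k : Type u) [Field k] [DecidableEq k] [CharZero k] (B m : ℕ), 2 ≤ B → 0 < m →
      ∃ x y : RatFunc k, x ≠ 0 ∧ y ≠ 0 ∧ x * y ^ B ≠ 1 ∧ x * y ^ B ≠ -1 ∧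
        ht x ≤ (B - 2) * m ∧ ht y ≤ m ∧ 2 * (B - 1) * m ≤ numDeg (x * y ^ B + 1) ∧
        2 * (B - 1) * m ≤ ht (x * y ^ B) ∧ radDeg (x * y ^ B + 1) ≤ 2) := by
  refine ⟨?_, ?_, ?_, ?_, ?_⟩
  · intro k _ _ _ B α ε hB hα hε
    exact ⟨⟨fun ⟨β, H⟩ => region_necessary hB hα hε H, fun h => ⟨0, region_sufficient hB hε h⟩⟩,
      fun h => region_sufficient hB hε h⟩
  · intro k _ _ _ B α ε hB hα hε hε1
    rw [← region_iff hB hα hε hε1]
    exact ⟨fun ⟨β, H⟩ => region_necessary hB (by linarith) hε H,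
      fun h => ⟨0, region_sufficient hB hε h⟩⟩
  · intro k _ _ p _ _ B α ε hB hα hε
    constructor
    · rintro ⟨β, H⟩
      exact ⟨necessary_alpha hα hε H, necessary_char_p p hB hα hε H⟩
    · rintro ⟨h1, h2⟩
      exact ⟨0, fun x y hx hy _ _ => ineq_of_one_le hB h1 h2 hx hy⟩
  · intro k _ _ B x y hB hx hy hne hsep
    refine ⟨?_, ?_⟩
    · intro α ε h3 hε hreg
      exact ineq_of_region h3 hreg.1 hε (hreg.2.2 (by omega)) hx hy hne hsep
    · obtain ⟨b, rfl⟩ : ∃ b, B = b + 1 := ⟨B - 1, by omega⟩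
      rw [Nat.add_sub_cancel]
      exact main_ineq b hx hy hne hsep
  · intro k _ _ _ B m hB hm
    obtain ⟨b, rfl⟩ : ∃ b, B = b + 2 := ⟨B - 2, by omega⟩
    obtain ⟨x, y, h1, h2, h3, h4, h5, h6, h7, h8⟩ := extremal (k := k) b hm
    have e1 : b + 2 - 2 = b := by omega
    have e2 : 2 * (b + 2 - 1) * m = (2 * b + 2) * m := by
      congr 1
    refine ⟨x, y, h1, h2, h3, h4, by rw [e1]; exact h5, h6, ?_, ?_, h8⟩
    · rw [e2]; exact h7.ge
    · rw [e2, ← h7]; exact numDeg_le _

end Pool.Agent.Results.MP_05f553_nt.ConstantsOverFunctionFields
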